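import Pool.Agent.Work.MP_acdd82_co.Counter

/-!
# Disjoint independent bases: counterexamples for every odd maximum degree

For every odd `d ≥ 3` there are a `d`-regular graph `G` and a matroid `N` of rank `3` on its
vertices whose vertex set is the union of `2 d` pairwise disjoint bases of `N`, while at most
`2 d - 1` pairwise disjoint bases of `N` are independent sets of `G`.
-/

set_option autoImplicit false

namespace Pool.Agent.Results.MP_acdd82_co.OddDegree

open Pool.Agent.Work.MP_acdd82_co

/-- The matroid `N` has `k` pairwise disjoint bases, each of which satisfies `p`. -/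
def HasDisjointBases {V : Type} (N : Matroid V) (p : Set V → Prop) (k : ℕ) : Prop :=
  ∃ B : Fin k → Set V, (∀ i, N.IsBase (B i) ∧ p (B i)) ∧
    Pairwise (fun i j => Disjoint (B i) (B j))

/-- The smaller end of every edge. -/
def lo : Fin 6 → Fin 4 := ![0, 0, 0, 2, 1, 1]

lemma star_mem (v : Fin 4) : star v ∈ k4Bases := by
  revert v
  decide +kernel

lemma star_opp (v : Fin 4) (e : Fin 6) (h : e ∈ star v) : e + 3 ∉ star v := by
  revert v e
  decide +kernel

lemma lo_of_mem (v w : Fin 4) (e : Fin 6) (h : e ∈ star v) (h' : e ∈ star w)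
    (hvw : v ≠ w) : (v = lo e ∧ w ≠ lo e) ∨ (w = lo e ∧ v ≠ lo e) := by
  revert v w e
  decide +kernel

lemma lo_zero (e : Fin 6) (h : e ∈ star (0 : Fin 4)) : lo e = 0 := by
  revert e
  decide +kernel

lemma base_ncard (d : ℕ) (hd : 0 < d) (B : Set (Fin 6 × Fin d)) (hB : (k4Par d).IsBase B) :
    B.ncard = 3 := by
  rw [k4Par_isBase_iff d hd] at hB
  obtain ⟨⟨F, hF, hFB⟩, hinj⟩ := hB
  rw [← hinj.ncard_image, ← hFB, Set.ncard_coe_finset]
  have := (Finset.mem_filter.1 hF).1
  exact (Finset.mem_powersetCard.1 this).2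

lemma le_two_mul (d : ℕ) (hd : 0 < d) (k : ℕ)
    (h : HasDisjointBases (k4Par d) (fun _ => True) k) : k ≤ 2 * d := by
  classical
  obtain ⟨B, hB, hdisj⟩ := h
  have h1 : (Finset.univ.biUnion fun i => (B i).toFinset).card = ∑ i : Fin k, (B i).toFinset.card := by
    apply Finset.card_biUnion
    intro i _ j _ hij
    exact Set.disjoint_toFinset.2 (hdisj hij)
  have h2 : ∀ i, (B i).toFinset.card = 3 := fun i => by
    rw [← Set.ncard_eq_toFinset_card', base_ncard d hd (B i) (hB i).1]
  have h3 : (Finset.univ.biUnion fun i => (B i).toFinset).card ≤ Fintype.card (Fin 6 × Fin d) :=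
    Finset.card_le_univ _
  rw [h1, Finset.sum_congr rfl fun i _ => h2 i] at h3
  simp at h3
  omega

lemma has_stars (m : ℕ) :
    HasDisjointBases (k4Par (2 * m + 1)) (oppGraph (2 * m + 1)).IsIndepSet (4 * m + 1) := by
  let v : Fin (4 * m + 1) → Fin 4 := fun i => ⟨i.1 % 4, Nat.mod_lt _ (by norm_num)⟩
  let q : Fin (4 * m + 1) → ℕ := fun i => i.1 / 4
  have hq : ∀ i, q i ≤ m := fun i => by
    have := i.2
    simp only [q]
    omega
  have hq' : ∀ i, v i ≠ 0 → q i < m := fun i hi => by
    have h1 := i.2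
    have h2 : i.1 % 4 ≠ 0 := fun h => hi (Fin.ext h)
    simp only [q]
    omega
  have hiq : ∀ i j, v i = v j → q i = q j → i = j := fun i j h h' => by
    have h1 : i.1 % 4 = j.1 % 4 := congrArg Fin.val h
    have h2 : i.1 / 4 = j.1 / 4 := h'
    apply Fin.ext
    omega
  refine ⟨fun i => {x | x.1 ∈ star (v i) ∧ (x.2 : ℕ) = q i + if v i = lo x.1 then 0 else m + 1},
    fun i => ⟨?_, ?_⟩, ?_⟩
  · rw [k4Par_isBase_iff _ (by omega)]
    refine ⟨⟨star (v i), star_mem _, ?_⟩, ?_⟩
    · ext e
      simp only [Finset.mem_coe, Set.mem_image, Set.mem_ofPred_eq, Prod.exists, exists_and_right,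
        exists_eq_right]
      constructor
      · intro he
        by_cases h : v i = lo e
        · exact ⟨⟨q i, by have := hq i; omega⟩, he, by simp [h]⟩
        · have hv : v i ≠ 0 := by
            intro h0
            rw [h0] at he h
            exact h (lo_zero e he).symm
          exact ⟨⟨q i + (m + 1), by have := hq' i hv; omega⟩, he, by simp [h]⟩
      · rintro ⟨j, he, -⟩
        exact he
    · rintro ⟨e, j⟩ ⟨h1, h2⟩ ⟨e', j'⟩ ⟨h1', h2'⟩ hee
      simp only at hee h2 h2'
      subst hee
      exact Prod.ext rfl (Fin.ext (h2.trans h2'.symm))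
  · rintro ⟨e, j⟩ ⟨h1, -⟩ ⟨e', j'⟩ ⟨h1', -⟩ - hadj
    have h3 : e + 3 = e' := hadj
    subst h3
    exact star_opp _ _ h1 h1'
  · intro i j hij
    rw [Set.disjoint_left]
    rintro ⟨e, c⟩ ⟨h1, h2⟩ ⟨h1', h2'⟩
    simp only at h1 h2 h1' h2'
    by_cases hv : v i = v j
    · apply hij
      apply hiq i j hv
      rw [hv] at h2
      omega
    · have hqi := hq i
      have hqj := hq j
      rcases lo_of_mem _ _ _ h1 h1' hv with ⟨ha, hb⟩ | ⟨ha, hb⟩
      · rw [if_pos ha] at h2
        rw [if_neg hb] at h2'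
        omega
      · rw [if_neg hb] at h2
        rw [if_pos ha] at h2'
        omega

/-- For every odd `d ≥ 3` there are a finite graph `G`, regular of degree `d`, and a matroid `N`
of rank `3` on its vertex set such that the largest number of pairwise disjoint bases of `N` is
`2 d`, while the largest number of pairwise disjoint bases of `N` which are independent sets of `G`
is `2 d - 1`. -/
theorem result (d : ℕ) (hd : Odd d) (h3 : 3 ≤ d) :
    ∃ (V : Type) (_ : Fintype V) (_ : DecidableEq V) (G : SimpleGraph V) (_ : DecidableRel G.Adj)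
      (N : Matroid V), N.E = Set.univ ∧ G.IsRegularOfDegree d ∧ G.maxDegree = d ∧
        (∀ B, N.IsBase B → B.ncard = 3) ∧
        IsGreatest {k | HasDisjointBases N (fun _ => True) k} (2 * d) ∧
        IsGreatest {k | HasDisjointBases N G.IsIndepSet k} (2 * d - 1) := by
  have hd0 : 0 < d := by omega
  refine ⟨Fin 6 × Fin d, inferInstance, inferInstance, oppGraph d, inferInstance, k4Par d,
    rfl, oppGraph_degree d, oppGraph_maxDegree d hd0, base_ncard d hd0, ⟨?_, ?_⟩, ⟨?_, ?_⟩⟩
  · obtain ⟨B, hB, hB'⟩ := main_pos d hd0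
    exact ⟨B, fun i => ⟨hB i, trivial⟩, hB'⟩
  · exact fun k hk => le_two_mul d hd0 k hk
  · obtain ⟨m, rfl⟩ := hd
    have h : 2 * (2 * m + 1) - 1 = 4 * m + 1 := by omega
    rw [h]
    exact has_stars m
  · rintro k ⟨B, hB, hdisj⟩
    by_contra hlt
    rw [not_le] at hlt
    have hle : 2 * d ≤ k := by omega
    exact main_neg d hd (fun i => B (Fin.castLE hle i)) (fun i => hB _)
      (fun i j hij => hdisj fun h => hij (Fin.castLE_injective hle h))

end Pool.Agent.Results.MP_acdd82_co.OddDegree
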